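import Pool.Agent.Lib.MP_0a04b1_lc.Proof

set_option autoImplicit false

namespace Pool.Agent.Results.MP_0a04b1_lc.NotIsoUnderDecomposition

open Pool.Agent.Lib.MP_0a04b1_lc

/-- The group of all permutations of `ℤ` and the group of all self-homeomorphisms of `[0,1]` have
the same cardinality, and they are not isomorphic under decomposition. -/
theorem result :
    Nonempty (Equiv.Perm ℤ ≃ (unitInterval ≃ₜ unitInterval)) ∧
      ¬ GroupIsoDecomp (Equiv.Perm ℤ) (unitInterval ≃ₜ unitInterval) :=
  main

end Pool.Agent.Results.MP_0a04b1_lc.NotIsoUnderDecomposition
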